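import Pool.Agent.H416.Cls
import Pool.Agent.H416.QL
import Pool.Agent.H416.OS

set_option autoImplicit false

/-!
# The Chern character of `K₁(B[G])`, `G` a group of homeomorphisms of the circle

Let `G` be a torsion-free group. If `Wh(G) = 0`, then for every invertible matrix `u` over `ℤ[G]`
there is `γ ∈ G` such that all cycles `(Ω, δ, T)` in the sense of Connes of odd dimension take the
same value on `u` and on `γ`. We prove this if the elements `g ≠ 1` of `G` satisfy `OnCircle`, with
`ℤ` replaced by any field of characteristic zero and without conditions on the values of the cycle on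
the tuples of group elements with product `≠ 1`; and for arbitrary coefficient rings `B` we prove that
the value on `u` is the contribution of the tuples with product `1`.

`OnCircle G g`: every finitely generated subgroup `H` of `G` that contains `g` acts by homeomorphisms
on the circle such that the fixed point set of every element has only finitely many boundary points,
and `g` acts by a homeomorphism of infinite order. It holds for instance for all elements of infinite
order of the groups of real analytic, piecewise analytic, piecewise linear or piecewise projective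
homeomorphisms of the circle. No derivatives, orientations or fixed points are assumed. The elements
`g` may be conjugate to `g ^ m` for many exponents `m`.

Let `word δ ρ n u v` be the matrix over `Ω[G]` whose coefficient at `h` is the sum of the terms of
`v δu (δv δu) ^ n` with product `h`; `compT T (word δ ρ n u v) g` is the component at the conjugacy
class of `g` of the value `onM δ T ρ n u v = T (v δu (δv δu) ^ n)`, `v = u⁻¹`.

Outline of the proof. The element `g` has infinite order in the abelianisation of its centraliser, in
the finitely generated subgroups (rotation numbers, the order of the germs at the end of an interval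
on which a power of `g` has no fixed points, Hoelder's theorem, transfer). So there is a function `l`
with rational values, additive on the centraliser, `l g = 1`. With a homomorphism `f` from `M` to `ℚ`
it defines a form `P` on `Ω[G]` with `P(a, b c) = P(c a, b) + P(a b, c)`, `P(1, a) = f (T_g(a))` and
`P(δa, b) + P(a, δb) = 0` for `a` of even degree, and `P(1, v δu (δv δu) ^ n) = 0`. For (3) the cycle
is localised at `1`, as the cycle `Ω[G]` over `K[G]`. The element `γ` is given by the determinant over
the group algebra of the torsion-free abelian quotient; the first statements are applied to the cycles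
of dimension one on the dual numbers over `K[G]` given by the homomorphisms `G → K`, so that the
components at `1` are the values of these homomorphisms on `γ`, and the calculation modulo large
primes of the starting results gives the higher dimensions.
-/

namespace Pool.Agent.Results.MP_16fe43_al.CircleGroupCycles

open Pool.Agent.V11187.DG (Cyc onM onElt value word compT supp)
open Pool.Agent.H416 (OnCircle)

universe u v w x y

/-- For all coefficient rings `B`, all cycles of odd dimension over `B[G]` and all invertible matrices
over `B[G]`, the component of the value at the conjugacy class of `g` is a torsion element. -/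
def Torsion (G : Type w) [Group G] (g : G) : Prop :=
  ∀ (K : Type u) [CommRing K] (B : Type y) [Ring B] (Ω : Type v) [Ring Ω] [Algebra K Ω]
    (𝒜 : ℕ → Submodule K Ω) [GradedAlgebra 𝒜] (M : Type x) [AddCommGroup M] [Module K M]
    (δ : Ω →ₗ[K] Ω) (T : Ω →ₗ[K] M) (n : ℕ), Cyc (2 * n + 1) 𝒜 δ T →
    ∀ ρ : MonoidAlgebra B G →+* Ω, (∀ a, ρ a ∈ 𝒜 0) →
    ∀ (d : ℕ) (u v : Matrix (Fin d) (Fin d) (MonoidAlgebra B G)), u * v = 1 → v * u = 1 →
      ∃ k : ℤ, k ≠ 0 ∧ k • compT T (word δ ρ n u v) g = 0

/-- For all coefficient rings `B`, all cycles of odd dimension over `B[G]` with values in torsion-free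
groups and all invertible matrices over `B[G]`, the value is its component at `1`. -/
def OnlyOne (G : Type w) [Group G] : Prop :=
  ∀ (K : Type u) [CommRing K] (B : Type y) [Ring B] (Ω : Type v) [Ring Ω] [Algebra K Ω]
    (𝒜 : ℕ → Submodule K Ω) [GradedAlgebra 𝒜] (M : Type x) [AddCommGroup M] [Module K M]
    (δ : Ω →ₗ[K] Ω) (T : Ω →ₗ[K] M) (n : ℕ), (∀ (k : ℤ) (z : M), k ≠ 0 → k • z = 0 → z = 0) →
    Cyc (2 * n + 1) 𝒜 δ T → ∀ ρ : MonoidAlgebra B G →+* Ω, (∀ a, ρ a ∈ 𝒜 0) →
    ∀ (d : ℕ) (u v : Matrix (Fin d) (Fin d) (MonoidAlgebra B G)), u * v = 1 → v * u = 1 →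
      onM δ T ρ n u v = compT T (word δ ρ n u v) 1

/-- The values of the cycle on the tuples of elements of `H` with product `1` lie in the module
generated by a finite set over a finitely generated subring of `K`. -/
def FinType {K : Type u} [Field K] {G : Type w} [Group G] {Ω : Type v} [Ring Ω] [Algebra K Ω]
    {M : Type x} [AddCommGroup M] [Module K M] (δ : Ω →ₗ[K] Ω) (T : Ω →ₗ[K] M) (N : ℕ)
    (ρ : MonoidAlgebra K G →ₐ[K] Ω) (H : Subgroup G) : Prop :=
  ∃ (s : Finset K) (F : Finset M), ∀ (a : H) (l : List H),
    l.length = N → a * l.prod = 1 → value δ T ρ a (l.map Subtype.val) ∈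
      Submodule.span (Algebra.adjoin ℤ (s : Set K)) (F : Set M)

/-- All cycles of odd dimension with the property `FinType` take the same value on `u` and `γ`. -/
def SameValues (K : Type u) [Field K] {G : Type w} [Group G] {d : ℕ}
    (u v : Matrix (Fin d) (Fin d) (MonoidAlgebra K G)) (γ : G) : Prop :=
  ∀ (Ω : Type v) [Ring Ω] [Algebra K Ω] (𝒜 : ℕ → Submodule K Ω) [GradedAlgebra 𝒜]
    (M : Type x) [AddCommGroup M] [Module K M] (δ : Ω →ₗ[K] Ω) (T : Ω →ₗ[K] M) (n : ℕ),
    Cyc (2 * n + 1) 𝒜 δ T → ∀ ρ : MonoidAlgebra K G →ₐ[K] Ω, (∀ a, ρ a ∈ 𝒜 0) →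
    FinType δ T (2 * n + 1) ρ (supp u v) →
    onM δ T (ρ : MonoidAlgebra K G →+* Ω) n u v = onElt δ T ρ n γ

/-- (1) The components at the elements `g` of any group with `OnCircle G g` are torsion elements.
(2) If all elements `g ≠ 1` satisfy `OnCircle` then the values with arbitrary coefficient rings are
the components at `1`, and (3) for the coefficient fields of characteristic zero they are the values
on a group element. -/
theorem result :
    (∀ (G : Type w) [Group G] (g : G), OnCircle G g → Torsion.{u, v, w, x, y} G g) ∧
    (∀ (G : Type w) [Group G], (∀ g : G, g ≠ 1 → OnCircle G g) → OnlyOne.{u, v, w, x, y} G) ∧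
    (∀ (G : Type w) [Group G], (∀ g : G, g ≠ 1 → OnCircle G g) →
      ∀ (K : Type u) [Field K] [CharZero K] (d : ℕ)
        (u v : Matrix (Fin d) (Fin d) (MonoidAlgebra K G)), u * v = 1 → v * u = 1 →
        ∃ γ : G, SameValues.{u, v, w, x} K u v γ) := by
  refine ⟨?_, ?_, ?_⟩
  · intro G _ g hg K _ B _ Ω _ _ 𝒜 _ M _ _ δ T n hc ρ hρ d u v huv hvu
    exact Pool.Agent.H416.QG.torsionM_loc (Pool.Agent.H416.Cls.loc_circle hg) hc hρ u v huv hvu
  · intro G _ hG K _ B _ Ω _ _ 𝒜 _ M _ _ δ T n hM hc ρ hρ d u v huv hvu
    exact Pool.Agent.H416.QG.onM_one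
      (fun g hg => Pool.Agent.H416.Cls.loc_circle (hG g hg)) hM hc hρ u v huv hvu
  · intro G _ hG K _ _ d u v huv hvu
    obtain ⟨γ, _, hγ⟩ := Pool.Agent.H416.OS.onM_supp.{u, v, w, x}
      (fun g hg => Pool.Agent.H416.Cls.loc_circle (hG g hg)) u v huv hvu
    exact ⟨γ, hγ⟩

end Pool.Agent.Results.MP_16fe43_al.CircleGroupCycles
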